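import Mathlib
import Pool.Agent.Helper98.EQ.Goals

set_option autoImplicit false

namespace Pool.Agent.Helper66.EQ.PATH

variable {X : Type}

/-- The twisted shift. -/
def sh {n : ℕ} (z : Equiv.Perm X) (w : Fin (n + 1) → X) : Fin (n + 1) → X :=
  Fin.snoc (α := fun _ => X) (Fin.tail w) (z (w 0))

/-- The inverse of the twisted shift. -/
def hs {n : ℕ} (z : Equiv.Perm X) (w : Fin (n + 1) → X) : Fin (n + 1) → X :=
  Fin.cons (α := fun _ => X) (z.symm (w (Fin.last n))) (Fin.init w)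

lemma sh_castSucc {n : ℕ} (z : Equiv.Perm X) (w : Fin (n + 1) → X) (i : Fin n) :
    sh z w i.castSucc = w i.succ := by
  simp [sh, Fin.tail]

lemma sh_last {n : ℕ} (z : Equiv.Perm X) (w : Fin (n + 1) → X) :
    sh z w (Fin.last n) = z (w 0) := by
  simp [sh]

/-- The twisted shift as a permutation. -/
def shE (n : ℕ) (z : Equiv.Perm X) : Equiv.Perm (Fin (n + 1) → X) where
  toFun := sh z
  invFun := hs z
  left_inv w := by
    funext i
    refine Fin.cases ?_ (fun j => ?_) i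
    · simp [hs, sh]
    · simp [hs, sh, Fin.tail]
  right_inv w := by
    funext i
    refine Fin.lastCases ?_ (fun j => ?_) i
    · simp [hs, sh]
    · simp [hs, sh, Fin.init]

/-- The infinite sequence. -/
def ext {n : ℕ} (z : Equiv.Perm X) (w : Fin (n + 1) → X) (i : ℕ) : X :=
  (z ^ (i / (n + 1))) (w ⟨i % (n + 1), Nat.mod_lt _ (Nat.succ_pos n)⟩)

lemma ext_lt {n : ℕ} (z : Equiv.Perm X) (w : Fin (n + 1) → X) (i : Fin (n + 1)) :
    ext z w i = w i := by
  unfold ext
  have h1 : (i : ℕ) / (n + 1) = 0 := Nat.div_eq_of_lt i.2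
  rw [h1, pow_zero]
  have h2 : (⟨(i : ℕ) % (n + 1), Nat.mod_lt _ (Nat.succ_pos n)⟩ : Fin (n + 1)) = i := by
    ext
    exact Nat.mod_eq_of_lt i.2
  rw [h2]
  rfl

lemma ext_add {n : ℕ} (z : Equiv.Perm X) (w : Fin (n + 1) → X) (i : ℕ) :
    ext z w (i + (n + 1)) = z (ext z w i) := by
  unfold ext
  have h1 : (i + (n + 1)) / (n + 1) = i / (n + 1) + 1 := Nat.add_div_right _ (Nat.succ_pos n)
  have h2 : (i + (n + 1)) % (n + 1) = i % (n + 1) := Nat.add_mod_right _ _
  rw [h1, pow_succ']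
  simp only [h2, Equiv.Perm.coe_mul, Function.comp_apply]

lemma ext_add_mul {n : ℕ} (z : Equiv.Perm X) (w : Fin (n + 1) → X) (q i : ℕ) :
    ext z w (i + q * (n + 1)) = (z ^ q) (ext z w i) := by
  induction q with
  | zero => simp
  | succ q ih =>
    rw [Nat.succ_mul, ← add_assoc, ext_add, ih, pow_succ']
    rfl

lemma sh_eq {n : ℕ} (z : Equiv.Perm X) (w : Fin (n + 1) → X) (i : Fin (n + 1)) :
    sh z w i = ext z w (i + 1) := by
  refine Fin.lastCases ?_ (fun j => ?_) i
  · rw [sh_last]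
    have := ext_add z w 0
    rw [zero_add] at this
    rw [Fin.val_last, this]
    congr 1
    exact (ext_lt z w 0).symm
  · rw [sh_castSucc]
    have := ext_lt z w j.succ
    rw [← this]
    simp

lemma ext_sh {n : ℕ} (z : Equiv.Perm X) (w : Fin (n + 1) → X) (j : ℕ) :
    ext z (sh z w) j = ext z w (j + 1) := by
  have hj : j = j % (n + 1) + j / (n + 1) * (n + 1) := by
    rw [mul_comm]; exact (Nat.mod_add_div j (n + 1)).symm
  have h1 : ext z (sh z w) j = (z ^ (j / (n + 1)))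
      (sh z w ⟨j % (n + 1), Nat.mod_lt _ (Nat.succ_pos n)⟩) := rfl
  rw [h1, sh_eq]
  have h2 : j + 1 = (j % (n + 1) + 1) + j / (n + 1) * (n + 1) := by omega
  conv_rhs => rw [h2]
  rw [ext_add_mul]

lemma shE_pow {n : ℕ} (z : Equiv.Perm X) (k : ℕ) : ∀ (w : Fin (n + 1) → X) (i : Fin (n + 1)),
    ((shE n z) ^ k) w i = ext z w (i + k) := by
  induction k with
  | zero => intro w i; simp [ext_lt]
  | succ k ih =>
    intro w i
    rw [pow_succ, Equiv.Perm.mul_apply, ih]
    have : (shE n z) w = sh z w := rfl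
    rw [this, ext_sh]
    rfl

lemma shE_full {n : ℕ} (z : Equiv.Perm X) (w : Fin (n + 1) → X) (i : Fin (n + 1)) :
    ((shE n z) ^ (n + 1)) w i = z (w i) := by
  rw [shE_pow, ext_add, ext_lt]

lemma shE_full_pow {n : ℕ} (z : Equiv.Perm X) (q : ℕ) (w : Fin (n + 1) → X) (i : Fin (n + 1)) :
    ((shE n z) ^ (q * (n + 1))) w i = (z ^ q) (w i) := by
  rw [shE_pow, ext_add_mul, ext_lt]

variable {R : Type} [CommRing R] [Fintype X] [DecidableEq X]

lemma pow_path (π : Matrix X X R) (n : ℕ) : ∀ x y : X, (π ^ (n + 1)) x y =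
    ∑ v : Fin n → X, ∏ i : Fin (n + 1),
      π (Fin.cons (α := fun _ => X) x v i) (Fin.snoc (α := fun _ => X) v y i) := by
  induction n with
  | zero =>
    intro x y
    simp [Fin.snoc]
  | succ n ih =>
    intro x y
    rw [pow_succ', Matrix.mul_apply]
    simp_rw [ih, Finset.mul_sum]
    rw [← Fintype.sum_prod_type' (f := fun (u : X) (v : Fin n → X) => π x u * ∏ i : Fin (n + 1),
      π (Fin.cons (α := fun _ => X) u v i) (Fin.snoc (α := fun _ => X) v y i))]
    refine Fintype.sum_equiv (Fin.consEquiv (fun _ => X)) _ _ ?_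
    rintro ⟨u, v⟩
    have h : (Fin.snoc (α := fun _ => X) (Fin.cons (α := fun _ => X) u v : Fin (n + 1) → X) y :
        Fin (n + 2) → X) = Fin.cons (α := fun _ => X) u
          (Fin.snoc (α := fun _ => X) v y : Fin (n + 1) → X) :=
      (Fin.cons_snoc_eq_snoc_cons u v y).symm
    change _ = ∏ i : Fin (n + 2),
      π (Fin.cons (α := fun _ => X) x (Fin.cons (α := fun _ => X) u v) i)
        (Fin.snoc (α := fun _ => X) (Fin.cons (α := fun _ => X) u v) y i)
    rw [h, Fin.prod_univ_succ (n := n + 1)]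
    simp only [Fin.cons_zero, Fin.cons_succ]

/-- The weight. -/
def wt {n : ℕ} (z : Equiv.Perm X) (π : Matrix X X R) (w : Fin (n + 1) → X) : R :=
  ∏ i : Fin (n + 1), π (w i) (sh z w i)

lemma sum_wt (z : Equiv.Perm X) (π : Matrix X X R) (n : ℕ) :
    ∑ x, (π ^ (n + 1)) x (z x) = ∑ w : Fin (n + 1) → X, wt z π w := by
  simp_rw [pow_path]
  rw [← Fintype.sum_prod_type' (f := fun (x : X) (v : Fin n → X) => ∏ i : Fin (n + 1),
      π (Fin.cons (α := fun _ => X) x v i) (Fin.snoc (α := fun _ => X) v (z x) i))]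
  refine Fintype.sum_equiv (Fin.consEquiv (fun _ => X)) _ _ ?_
  rintro ⟨u, v⟩
  change _ = ∏ i : Fin (n + 1), π (Fin.cons (α := fun _ => X) u v i)
    (Fin.snoc (α := fun _ => X) (Fin.tail (Fin.cons (α := fun _ => X) u v))
      (z (Fin.cons (α := fun _ => X) u v 0)) i)
  rw [Fin.tail_cons, Fin.cons_zero]

omit [Fintype X] [DecidableEq X] in
lemma wt_sh (z : Equiv.Perm X) (π : Matrix X X R) (hπ : ∀ x y, π (z x) (z y) = π x y) {n : ℕ}
    (w : Fin (n + 1) → X) : wt z π (sh z w) = wt z π w := by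
  unfold wt
  rw [Fin.prod_univ_castSucc, Fin.prod_univ_succ]
  simp only [sh_castSucc, sh_last, hπ]
  rw [mul_comm]

theorem t (h : Pool.Agent.Helper98.EQ.S_ORB) : Pool.Agent.Helper98.EQ.S_PATH := by
  classical
  intro p _ R X _ _ _ z k s hz π hπ
  have hp : 0 < p := (Fact.out : p.Prime).pos
  obtain ⟨n, hn⟩ : ∃ n, p ^ s = n + 1 := ⟨p ^ s - 1, by have := Nat.pow_pos (n := s) hp; omega⟩
  have hS : (shE n z) ^ p ^ (s + k) = 1 := by
    ext w i
    rw [pow_add, mul_comm, hn, shE_full_pow, hz]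
    rfl
  obtain ⟨c, hc⟩ := h p R (Fin (n + 1) → X) (shE n z) (s + k) s hS (wt z π)
    (fun w => wt_sh z π hπ w)
  refine ⟨c, ?_⟩
  rw [← hc, hn, sum_wt, ← Finset.sum_filter_add_sum_filter_not Finset.univ
    (fun w => ((shE n z) ^ (n + 1)) w = w)]
  congr 1
  have htr := sum_wt (R := R) (1 : Equiv.Perm {x // z x = x})
    (π.submatrix (Subtype.val : {x // z x = x} → X) Subtype.val) n
  simp only [Equiv.Perm.coe_one, id_eq] at htr
  rw [Matrix.trace]
  simp only [Matrix.diag_apply]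
  rw [htr]
  symm
  refine Finset.sum_bij (fun w _ => fun i => ((w i : {x // z x = x}) : X)) ?_ ?_ ?_ ?_
  · intro w _
    rw [Finset.mem_filter]
    refine ⟨Finset.mem_univ _, ?_⟩
    funext i
    rw [shE_full]
    exact (w i).2
  · intro w _ w' _ hw
    funext i
    exact Subtype.ext (congrFun hw i)
  · intro w hw
    rw [Finset.mem_filter] at hw
    refine ⟨fun i => ⟨w i, ?_⟩, Finset.mem_univ _, rfl⟩
    have := congrFun hw.2 i
    rwa [shE_full] at this
  · intro w _
    unfold wt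
    refine Finset.prod_congr rfl (fun i _ => ?_)
    rw [Matrix.submatrix_apply]
    congr 1
    refine Fin.lastCases ?_ (fun j => ?_) i
    · rw [sh_last, sh_last]
      simp only [Equiv.Perm.coe_one, id_eq]
      exact (w 0).2.symm
    · rw [sh_castSucc, sh_castSucc]

end Pool.Agent.Helper66.EQ.PATH
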